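import Mathlib
import Pool.Agent.H1.EKBaire

set_option autoImplicit false

namespace Pool.Agent.Results.MP_02e1b1_nt.NoUniformRate

open Filter Topology Pool.Agent.H1.EK

/-- There is no uniform Erdos-Kac rate for real quadratic polynomials irreducible over the reals:
for every sequence `η` tending to zero, every `γ` in `(0, 1)` and every open interval `(u, v)` with
`1 / (4 γ) ≤ u` there is `α` in `(u, v)` such that `(α, -1, γ)` is admissible and the Kolmogorov
distance is not `O(η)`. -/
theorem result (η : ℕ → ℝ) (hη : Tendsto η atTop (𝓝 0)) (γ : ℝ) (hγ0 : 0 < γ) (hγ1 : γ < 1)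
    (u v : ℝ) (hu : 1 / (4 * γ) ≤ u) (huv : u < v) :
    ∃ α : ℝ, u < α ∧ α < v ∧ Admissible α (-1) γ ∧
      ¬ (fun N : ℕ => dK α (-1) γ N) =O[atTop] η :=
  final η hη γ hγ0 hγ1 u v hu huv

end Pool.Agent.Results.MP_02e1b1_nt.NoUniformRate
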